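import Pool.Agent.SOCat.PSTop

/-!
The perfect set property for all projective (`Σ^1_n`, any `n`) subsets of `P(lam)`, with
parameters in `V_{lam+1}`, from an `I1`-embedding `j : V_{lam+1} → V_{lam+1}`.
-/

namespace Pool.Agent.Results.MP_9c5ecf_lc.PerfectProjective

open SOCat

universe u

theorem result (lam : Ordinal.{u}) (j : VS lam → VS lam) (κ : ℕ → Ordinal.{u})
    (h : IsI1Emb j κ) (n : ℕ) (X : Set (Pow lam)) (hdef : SigmaDef n X)
    (hX : Cardinal.lift.{u+1} lam.card < Cardinal.mk X) :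
    ∃ ι : (ℕ → Set.Iio lam) → Pow lam, IsPerfectEmbedding ι ∧ Set.range ι ⊆ X :=
  h.perfectSigma n X hdef hX

end Pool.Agent.Results.MP_9c5ecf_lc.PerfectProjective
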